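import Pool.Agent.Lib.helper23.LoopSN

set_option autoImplicit false

namespace Pool.Agent.Results.MP_829a29_al.NilpMltSupernilp

open Pool.Agent.Lib.Helper23.LoopDefs

/-- A loop whose multiplication group is nilpotent of class `c` is `2 * 4 ^ (c - 1)`-supernilpotent. -/
theorem result : ∀ (Q : Type*) (L : Loop Q), Group.IsNilpotent (Mlt L) →
    AbsSupernilpotent L (2 * 4 ^ (Group.nilpotencyClass (Mlt L) - 1)) :=
  fun _ L _ => Pool.Agent.Lib.Helper23.LoopSN.abs_of_nilpotent L _
    Subgroup.lowerCentralSeries_nilpotencyClass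

end Pool.Agent.Results.MP_829a29_al.NilpMltSupernilp
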